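import Pool.Agent.Helper96.SE.Stmts

set_option autoImplicit false

/-! Module FRM: bookkeeping for the clique-colouring formula. -/

namespace Pool.Agent.Helper96.SE

open Pool.Agent.Helper31.BC (dst tourLen Placement Pair Ineq Refutes PCl chs chf xv inn sel col vr)
open Pool.Agent.Helper38.MR (Edge Graph clq mpt Gate Simple out trv)
open Pool.Agent.Helper52.Grid
open Pool.Agent.Helper68.LP (pert dbl ucost scale Costs padded sc)

theorem frm_fstA (k q l : ℕ) (In In' : ℕ → Bool) (se se' : ℕ → ℕ) :
    (pA k q l In se).map Prod.fst = (pA k q l In' se').map Prod.fst := by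
  simp only [pA, List.map_append, List.map_map, List.map_flatMap, apply_ite (List.map Prod.fst),
    List.map_cons, List.map_nil, Function.comp_def]

theorem frm_fstB (m l : ℕ) (c c' : ℕ → ℕ) :
    (pB m l c).map Prod.fst = (pB m l c').map Prod.fst := by
  simp only [pB, List.map_append, List.map_map, List.map_flatMap, apply_ite (List.map Prod.fst),
    List.map_cons, List.map_nil, Function.comp_def]

theorem frm_memA {k q l : ℕ} {In : ℕ → Bool} {se : ℕ → ℕ} {x : List (ℕ × Bool) × ℕ}
    (hx : x ∈ pA k q l In se) :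
    (∃ i, i < k ∧ x = ((List.range q).map fun j => (j + q * i, true), se i)) ∨
    ∃ u v, u < k * q ∧ v < k * q ∧ u < v ∧
      x = ([(u, false), (v, false), (xr (k * q) l u v, true)],
        if In u = false then 0 else if In v = false then 1 else 2) := by
  rw [pA, List.mem_append] at hx
  rcases hx with hx | hx
  · obtain ⟨i, hi, rfl⟩ := List.mem_map.mp hx
    exact Or.inl ⟨i, List.mem_range.mp hi, rfl⟩
  · obtain ⟨u, hu, hx⟩ := List.mem_flatMap.mp hx
    obtain ⟨v, hv, hx⟩ := List.mem_flatMap.mp hx
    by_cases huv : u < v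
    · rw [if_pos huv, List.mem_singleton] at hx
      exact Or.inr ⟨u, v, List.mem_range.mp hu, List.mem_range.mp hv, huv, hx⟩
    · rw [if_neg huv] at hx
      simp at hx

theorem frm_memB {m l : ℕ} {c : ℕ → ℕ} {x : List (ℕ × Bool) × ℕ} (hx : x ∈ pB m l c) :
    (∃ v, v < m ∧ x = ((List.range l).map fun c => (vr m l v c, true), c v)) ∨
    ∃ u v d, u < m ∧ v < m ∧ d < l ∧ u < v ∧
      x = ([(vr m l u d, false), (vr m l v d, false), (wr m l u v, true)],
        if c u ≠ d then 0 else if c v ≠ d then 1 else 2) := by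
  rw [pB, List.mem_append] at hx
  rcases hx with hx | hx
  · obtain ⟨i, hi, rfl⟩ := List.mem_map.mp hx
    exact Or.inl ⟨i, List.mem_range.mp hi, rfl⟩
  · obtain ⟨u, hu, hx⟩ := List.mem_flatMap.mp hx
    obtain ⟨v, hv, hx⟩ := List.mem_flatMap.mp hx
    obtain ⟨d, hd, hx⟩ := List.mem_flatMap.mp hx
    by_cases huv : u < v
    · rw [if_pos huv, List.mem_singleton] at hx
      exact Or.inr ⟨u, v, d, List.mem_range.mp hu, List.mem_range.mp hv, List.mem_range.mp hd,
        huv, hx⟩
    · rw [if_neg huv] at hx
      simp at hx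

theorem frm_uv {m u v : ℕ} (hu : u < m) (hv : v < m) : u * m + v < m * m := by
  have : (u + 1) * m ≤ m * m := Nat.mul_le_mul_right m hu
  have h2 : (u + 1) * m = u * m + m := by ring
  omega

theorem frm_vr {m l v c : ℕ} (hv : v < m) (hc : c < l) : vr m l v c < m + m * l := by
  unfold vr
  have : (v + 1) * l ≤ m * l := Nat.mul_le_mul_right l hv
  have h2 : (v + 1) * l = v * l + l := by ring
  omega

theorem st_FRM : ST_FRM := by
  intro k q l σ χ
  have hA : ∀ σ' : Fin k → Fin q, (pA k q l (inn σ') (sel σ')).map Prod.fst =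
      (pA k q l (fun _ => false) (fun _ => 0)).map Prod.fst := fun σ' => frm_fstA _ _ _ _ _ _ _
  have hB : ∀ χ' : Fin (k * q) → Fin l, (pB (k * q) l (col χ')).map Prod.fst =
      (pB (k * q) l (fun _ => 0)).map Prod.fst := fun χ' => frm_fstB _ _ _ _
  have hM : ccM k q l = k * q + k * q * l + (k * q) * (k * q) := rfl
  refine ⟨?_, ?_, ?_, ?_, ?_⟩
  · rw [pcc, List.map_append, hA, hB, ccF]
  · intro x hx
    rw [pcc, List.mem_append] at hx
    rcases hx with hx | hx
    · rcases frm_memA hx with ⟨i, hi, rfl⟩ | ⟨u, v, -, -, -, rfl⟩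
      · simp only [List.length_map, List.length_range]
        rw [sel, dif_pos hi]
        exact (σ ⟨i, hi⟩).2
      · simp only [List.length_cons, List.length_nil]
        split_ifs <;> omega
    · rcases frm_memB hx with ⟨v, hv, rfl⟩ | ⟨u, v, d, -, -, -, -, rfl⟩
      · simp only [List.length_map, List.length_range]
        rw [col, dif_pos hv]
        exact (χ ⟨v, hv⟩).2
      · simp only [List.length_cons, List.length_nil]
        split_ifs <;> omega
  · intro c hc y hy
    rw [ccF, List.mem_append] at hc
    rcases hc with hc | hc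
    · obtain ⟨x, hx, rfl⟩ := List.mem_map.mp hc
      rcases frm_memA hx with ⟨i, hi, rfl⟩ | ⟨u, v, hu, hv, -, rfl⟩
      · obtain ⟨j, hj, rfl⟩ := List.mem_map.mp hy
        have hj := List.mem_range.mp hj
        have h1 : (i + 1) * q ≤ k * q := Nat.mul_le_mul_right q hi
        have h2 : (i + 1) * q = q * i + q := by ring
        simp only
        omega
      · have h1 := frm_uv hu hv
        simp only [List.mem_cons, List.not_mem_nil, or_false] at hy
        rcases hy with rfl | rfl | rfl
        · simp only; omega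
        · simp only; omega
        · simp only [xr]; omega
    · obtain ⟨x, hx, rfl⟩ := List.mem_map.mp hc
      rcases frm_memB hx with ⟨v, hv, rfl⟩ | ⟨u, v, d, hu, hv, hd, -, rfl⟩
      · obtain ⟨j, hj, rfl⟩ := List.mem_map.mp hy
        have hj := List.mem_range.mp hj
        have h1 := frm_vr hv hj
        simp only
        omega
      · have h1 := frm_uv hu hv
        have h2 := frm_vr hu hd
        have h3 := frm_vr hv hd
        simp only [List.mem_cons, List.not_mem_nil, or_false] at hy
        rcases hy with rfl | rfl | rfl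
        · simp only; omega
        · simp only; omega
        · simp only [wr]; omega
  · intro i hi
    rw [tl, Bool.and_eq_true, Bool.and_eq_true, Bool.and_eq_true, decide_eq_true_eq,
      decide_eq_true_eq, decide_eq_true_eq, decide_eq_true_eq] at hi
    obtain ⟨⟨⟨h1, h2⟩, h3⟩, h4⟩ := hi
    have h5 : ¬ (i + 1 - (k * q + k * q * l)) % 2 = 0 := by omega
    rw [tl, decide_eq_false h5]
    simp
  · intro i hi
    rw [tl, Bool.and_eq_true, Bool.and_eq_true, Bool.and_eq_true, decide_eq_true_eq,
      decide_eq_true_eq, decide_eq_true_eq, decide_eq_true_eq] at hi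
    obtain ⟨⟨⟨h1, h2⟩, h3⟩, h4⟩ := hi
    obtain ⟨e, he⟩ : ∃ e, e = (i - (k * q + k * q * l)) / 2 := ⟨_, rfl⟩
    rw [← he] at h3
    have h5 : e % (k * q) < k * q := Nat.mod_lt _ h4
    have h6 := frm_uv (h3.trans h5) h5
    have h7 : e / (k * q) * (k * q) + e % (k * q) = e := by
      rw [mul_comm]; exact Nat.div_add_mod e (k * q)
    rw [h7] at h6
    omega

end Pool.Agent.Helper96.SE
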